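import Mathlib

namespace Pool.Agent.Results.MP_2b9a36_lc.NotNCylinder

/-- The finite set with canonical index `e`: the positions of the ones in the binary
expansion of `e`. -/
def D (e : ℕ) : Set ℕ := {i | e.testBit i = true}

/-- Enumeration reducibility. -/
def EnumLE (A B : Set ℕ) : Prop :=
  ∃ W : Set ℕ, REPred (fun x => x ∈ W) ∧ ∀ n, n ∈ A ↔ ∃ e, Nat.pair n e ∈ W ∧ D e ⊆ B

/-- Enumeration equivalence, that is, having the same `e`-degree. -/
def EnumEquiv (A B : Set ℕ) : Prop := EnumLE A B ∧ EnumLE B A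

/-- The join `A ⊕ B`. -/
def join (A B : Set ℕ) : Set ℕ := {x | (∃ n ∈ A, x = 2 * n) ∨ (∃ n ∈ B, x = 2 * n + 1)}

/-- The graph of a total function. -/
def graph (g : ℕ → ℕ) : Set ℕ := {x | ∃ n, x = Nat.pair n (g n)}

/-- The set of (codes of) initial segments of a total function. -/
def cGraph (g : ℕ → ℕ) : Set ℕ := {x | ∃ k, x = Encodable.encode ((List.range k).map g)}

/-- The part of the graph with values at least `b`. -/
def tGraph (b : ℕ) (g : ℕ → ℕ) : Set ℕ := {x | ∃ n, b ≤ g n ∧ x = Nat.pair n (g n)}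

/-- The `e`-degree of `A` is cylinder-cototal. -/
def CylinderCototal (A : Set ℕ) : Prop := ∃ g : ℕ → ℕ, EnumEquiv A (cGraph g)ᶜ

/-- The `e`-degree of `A` is telograph-cototal. -/
def TelographCototal (A : Set ℕ) : Prop :=
  ∃ (g : ℕ → ℕ) (b : ℕ), EnumEquiv A (join (graph g)ᶜ (tGraph b g))

/-- The `e`-degree of `A` is the join of `n` cylinder-cototal `e`-degrees (`n ≥ 1`). -/
def NCylinderCototal : ℕ → Set ℕ → Prop
  | 0, _ => False
  | 1, A => CylinderCototal A
  | n + 2, A => ∃ B C : Set ℕ,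
      CylinderCototal B ∧ NCylinderCototal (n + 1) C ∧ EnumEquiv A (join B C)

/-! ### Countability of the enumeration operators -/

theorem countable_re : {W : Set ℕ | REPred (fun x => x ∈ W)}.Countable := by
  refine (Set.countable_range (fun c : Nat.Partrec.Code => {n | (c.eval n).Dom})).mono ?_
  intro W hW
  obtain ⟨c, hc⟩ := Nat.Partrec.Code.exists_code.1 hW
  refine ⟨c, ?_⟩
  ext n
  simp [hc, Part.assert]

/-- The operator given by a set of axioms. -/
def Op (W : Set ℕ) (B : Set ℕ) : Set ℕ := {n | ∃ e, Nat.pair n e ∈ W ∧ D e ⊆ B}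

theorem EnumLE.exists_op {A B : Set ℕ} (h : EnumLE A B) :
    ∃ W : Set ℕ, REPred (fun x => x ∈ W) ∧ A = Op W B := by
  obtain ⟨W, hW, h⟩ := h
  exact ⟨W, hW, Set.ext h⟩

/-- Continuity (monotonicity and finite use) of a predicate of sets. -/
def CP {α : Type} (P : Set α → Prop) : Prop :=
  ∀ B, P B ↔ ∃ F : Finset α, (F : Set α) ⊆ B ∧ P (F : Set α)

/-- Continuity of an operator. -/
def Cont {α β : Type} (Φ : Set α → Set β) : Prop := ∀ x, CP (fun B => x ∈ Φ B)

theorem CP.mono {α : Type} {P : Set α → Prop} (h : CP P) {A B : Set α} (hAB : A ⊆ B)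
    (hP : P A) : P B := by
  obtain ⟨F, hF, hx⟩ := (h A).1 hP
  exact (h B).2 ⟨F, hF.trans hAB, hx⟩

theorem Cont.mono {α β : Type} {Φ : Set α → Set β} (h : Cont Φ) {A B : Set α} (hAB : A ⊆ B) :
    Φ A ⊆ Φ B := fun x hx => (h x).mono hAB hx

theorem cp_of_mono_of_use {α : Type} {P : Set α → Prop}
    (hm : ∀ A B : Set α, A ⊆ B → P A → P B)
    (hu : ∀ B, P B → ∃ F : Finset α, (F : Set α) ⊆ B ∧ P (F : Set α)) : CP P :=
  fun B => ⟨hu B, fun ⟨_, hF, hP⟩ => hm _ _ hF hP⟩

theorem cont_const_mem {α : Type} (x : α) : CP (fun B : Set α => x ∈ B) := by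
  refine cp_of_mono_of_use (fun A B h hx => h hx) (fun B hx => ⟨{x}, by simpa using hx, by simp⟩)

theorem CP.forall_finset {α β : Type} {P : β → Set α → Prop} (G : Finset β)
    (h : ∀ y, CP (P y)) : CP (fun B => ∀ y ∈ G, P y B) := by
  classical
  refine cp_of_mono_of_use (fun A B hAB hx y hy => (h y).mono hAB (hx y hy)) (fun B hx => ?_)
  have : ∀ y, ∃ F : Finset α, y ∈ G → ((F : Set α) ⊆ B ∧ P y (F : Set α)) := by
    intro y
    by_cases hy : y ∈ G
    · obtain ⟨F, hF⟩ := (h y B).1 (hx y hy)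
      exact ⟨F, fun _ => hF⟩
    · exact ⟨∅, fun h => absurd h hy⟩
  choose F hF using this
  refine ⟨G.biUnion F, ?_, fun y hy => ?_⟩
  · intro z hz
    simp only [Finset.coe_biUnion, Set.mem_iUnion] at hz
    obtain ⟨y, hy, hz⟩ := hz
    exact (hF y hy).1 hz
  · refine (h y).mono ?_ (hF y hy).2
    intro z hz
    simp only [Finset.coe_biUnion, Set.mem_iUnion]
    exact ⟨y, hy, hz⟩

theorem CP.comp {α β : Type} {P : Set β → Prop} {Ψ : Set α → Set β} (hP : CP P)
    (hΨ : Cont Ψ) : CP (fun B => P (Ψ B)) := by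
  refine cp_of_mono_of_use (fun A B hAB hx => hP.mono (hΨ.mono hAB) hx) (fun B hx => ?_)
  obtain ⟨G, hG, hPG⟩ := (hP _).1 hx
  obtain ⟨F, hF, hF'⟩ := (CP.forall_finset (P := fun y B => y ∈ Ψ B) G (fun y => hΨ y) B).1
    (fun y hy => hG hy)
  exact ⟨F, hF, hP.mono (fun y hy => hF' y hy) hPG⟩

theorem Cont.comp {α β γ : Type} {Φ : Set β → Set γ} {Ψ : Set α → Set β} (hΦ : Cont Φ)
    (hΨ : Cont Ψ) : Cont (fun B => Φ (Ψ B)) := fun x => (hΦ x).comp hΨ

theorem cont_id {α : Type} : Cont (fun B : Set α => B) := fun x => cont_const_mem x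

theorem D_finite (e : ℕ) : (D e).Finite := by
  refine (Set.finite_Iio e).subset ?_
  intro i hi
  have : 2 ^ i ≤ e := Nat.ge_two_pow_of_testBit hi
  exact lt_of_lt_of_le Nat.lt_two_pow_self this

theorem cont_op (W : Set ℕ) : Cont (Op W) := by
  intro x
  refine cp_of_mono_of_use ?_ ?_
  · rintro A B hAB ⟨e, he, hD⟩
    exact ⟨e, he, hD.trans hAB⟩
  · rintro B ⟨e, he, hD⟩
    refine ⟨(D_finite e).toFinset, by simpa using hD, e, he, by simp⟩

/-- Preimage operators are continuous. -/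
theorem cont_preimage {α β : Type} (f : β → α) : Cont (fun B : Set α => f ⁻¹' B) :=
  fun x => cont_const_mem (f x)

theorem CP.or {α : Type} {P Q : Set α → Prop} (hP : CP P) (hQ : CP Q) :
    CP (fun B => P B ∨ Q B) := by
  refine cp_of_mono_of_use (fun A B h hx => hx.imp (hP.mono h) (hQ.mono h)) ?_
  rintro B (h | h)
  · obtain ⟨F, hF, h⟩ := (hP B).1 h
    exact ⟨F, hF, Or.inl h⟩
  · obtain ⟨F, hF, h⟩ := (hQ B).1 h
    exact ⟨F, hF, Or.inr h⟩

theorem CP.and {α : Type} {P Q : Set α → Prop} (hP : CP P) (hQ : CP Q) :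
    CP (fun B => P B ∧ Q B) := by
  classical
  refine cp_of_mono_of_use (fun A B h hx => hx.imp (hP.mono h) (hQ.mono h)) ?_
  rintro B ⟨h, h'⟩
  obtain ⟨F, hF, h⟩ := (hP B).1 h
  obtain ⟨F', hF', h'⟩ := (hQ B).1 h'
  refine ⟨F ∪ F', by simp [hF, hF'], hP.mono (by simp) h, hQ.mono (by simp) h'⟩

theorem CP.exists {α β : Type} {P : β → Set α → Prop}
    (h : ∀ y, CP (P y)) : CP (fun B => ∃ y, P y B) := by
  refine cp_of_mono_of_use (fun A B hAB ⟨y, hy⟩ => ⟨y, (h y).mono hAB hy⟩) ?_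
  rintro B ⟨y, hy⟩
  obtain ⟨F, hF, h⟩ := (h y B).1 hy
  exact ⟨F, hF, y, h⟩

theorem cp_const {α : Type} (p : Prop) : CP (fun _ : Set α => p) := by
  refine cp_of_mono_of_use (fun A B hAB h => h) (fun B h => ⟨∅, by simp, h⟩)

/-! ### A countable family of pairs of operators -/

/-- The set of pairs coding an `n`-tuple of complements of cylinder graphs. -/
def coC {n : ℕ} (h : Fin n → ℕ → ℕ) : Set (Fin n × ℕ) := {p | p.2 ∉ cGraph (h p.1)}

/-- Pairs of operators: from sets to `n`-tuples of sets and back. -/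
abbrev OpPair (n : ℕ) : Type := (Set ℕ → Set (Fin n × ℕ)) × (Set (Fin n × ℕ) → Set ℕ)

/-- The operator pair for one set. -/
def pair1 (W V : Set ℕ) : OpPair 1 :=
  (fun A => {p | p.2 ∈ Op W A}, fun C => Op V ((fun x => ((0 : Fin 1), x)) ⁻¹' C))

/-- Adding one more set to the tuple. -/
def pairS {n : ℕ} (W V U T : Set ℕ) (p : OpPair n) : OpPair (n + 1) :=
  (fun A => {q | (q.1 = 0 ∧ q.2 ∈ Op W ((fun x => 2 * x) ⁻¹' (Op U A))) ∨
      ∃ i : Fin n, q.1 = i.succ ∧ (i, q.2) ∈ p.1 ((fun x => 2 * x + 1) ⁻¹' (Op U A))},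
    fun C => Op T (join (Op V ((fun x => ((0 : Fin (n + 1)), x)) ⁻¹' C))
      (p.2 ((fun q : Fin n × ℕ => (q.1.succ, q.2)) ⁻¹' C))))

/-- The family of all operator pairs needed for `n + 1` sets. -/
def Fam : (n : ℕ) → Set (OpPair (n + 1))
  | 0 => {p | ∃ W V : Set ℕ, REPred (fun x => x ∈ W) ∧ REPred (fun x => x ∈ V) ∧
      p = pair1 W V}
  | n + 1 => {p | ∃ W V U T : Set ℕ, REPred (fun x => x ∈ W) ∧ REPred (fun x => x ∈ V) ∧
      REPred (fun x => x ∈ U) ∧ REPred (fun x => x ∈ T) ∧ ∃ q ∈ Fam n, p = pairS W V U T q}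

theorem fam_countable (n : ℕ) : (Fam n).Countable := by
  induction n with
  | zero =>
    refine ((countable_re.prod countable_re).image
      (fun w : Set ℕ × Set ℕ => pair1 w.1 w.2)).mono ?_
    rintro p ⟨W, V, hW, hV, rfl⟩
    exact ⟨(W, V), ⟨hW, hV⟩, rfl⟩
  | succ n ih =>
    refine (((((countable_re.prod countable_re).prod countable_re).prod countable_re).prod
      ih).image (fun w : (((Set ℕ × Set ℕ) × Set ℕ) × Set ℕ) × OpPair (n + 1) =>
        pairS w.1.1.1.1 w.1.1.1.2 w.1.1.2 w.1.2 w.2)).mono ?_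
    rintro p ⟨W, V, U, T, hW, hV, hU, hT, q, hq, rfl⟩
    exact ⟨((((W, V), U), T), q), ⟨⟨⟨⟨hW, hV⟩, hU⟩, hT⟩, hq⟩, rfl⟩

theorem cont_join {α : Type} {Φ Ψ : Set α → Set ℕ} (hΦ : Cont Φ) (hΨ : Cont Ψ) :
    Cont (fun A => join (Φ A) (Ψ A)) := by
  intro x
  exact (CP.exists fun n => (hΦ n).and (cp_const _)).or
    (CP.exists fun n => (hΨ n).and (cp_const _))

theorem fam_cont (n : ℕ) : ∀ p ∈ Fam n, Cont p.1 ∧ Cont p.2 := by
  induction n with
  | zero =>
    rintro p ⟨W, V, hW, hV, rfl⟩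
    exact ⟨fun x => cont_op W x.2, (cont_op V).comp (cont_preimage _)⟩
  | succ n ih =>
    rintro p ⟨W, V, U, T, hW, hV, hU, hT, q, hq, rfl⟩
    obtain ⟨h1, h2⟩ := ih q hq
    refine ⟨fun x => ?_, ?_⟩
    · exact ((cp_const _).and (((cont_op W).comp ((cont_preimage _).comp (cont_op U))) _)).or
        (CP.exists fun i => (cp_const _).and ((h1.comp ((cont_preimage _).comp (cont_op U))) _))
    · exact (cont_op T).comp (cont_join ((cont_op V).comp (cont_preimage _))
        (h2.comp (cont_preimage _)))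

theorem left_join (A B : Set ℕ) : (fun x => 2 * x) ⁻¹' (join A B) = A := by
  ext x
  simp only [join, Set.mem_preimage, Set.mem_ofPred_eq]
  constructor
  · rintro (⟨n, hn, h⟩ | ⟨n, hn, h⟩)
    · have : x = n := by omega
      exact this ▸ hn
    · omega
  · intro h
    exact Or.inl ⟨x, h, rfl⟩

theorem right_join (A B : Set ℕ) : (fun x => 2 * x + 1) ⁻¹' (join A B) = B := by
  ext x
  simp only [join, Set.mem_preimage, Set.mem_ofPred_eq]
  constructor
  · rintro (⟨n, hn, h⟩ | ⟨n, hn, h⟩)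
    · omega
    · have : x = n := by omega
      exact this ▸ hn
  · intro h
    exact Or.inr ⟨x, h, rfl⟩

theorem fam_rep (n : ℕ) : ∀ A : Set ℕ, NCylinderCototal (n + 1) A →
    ∃ p ∈ Fam n, ∃ h : Fin (n + 1) → ℕ → ℕ, p.1 A = coC h ∧ p.2 (coC h) = A := by
  induction n with
  | zero =>
    intro A hA
    obtain ⟨g, h1, h2⟩ := hA
    obtain ⟨W, hW, hW'⟩ := h2.exists_op
    obtain ⟨V, hV, hV'⟩ := h1.exists_op
    refine ⟨pair1 W V, ⟨W, V, hW, hV, rfl⟩, fun _ => g, ?_, ?_⟩
    · ext p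
      simp only [pair1, coC, Set.mem_ofPred_eq, ← hW', Set.mem_compl_iff]
    · have : (fun x => ((0 : Fin 1), x)) ⁻¹' (coC (fun _ : Fin 1 => g)) = (cGraph g)ᶜ := by
        ext x
        simp [coC]
      simp only [pair1, this, ← hV']
  | succ n ih =>
    intro A hA
    obtain ⟨B, C, hB, hC, h1, h2⟩ := hA
    obtain ⟨g, h3, h4⟩ := hB
    obtain ⟨q, hq, h, hq1, hq2⟩ := ih C hC
    obtain ⟨W, hW, hW'⟩ := h4.exists_op
    obtain ⟨V, hV, hV'⟩ := h3.exists_op
    obtain ⟨U, hU, hU'⟩ := h2.exists_op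
    obtain ⟨T, hT, hT'⟩ := h1.exists_op
    refine ⟨pairS W V U T q, ⟨W, V, U, T, hW, hV, hU, hT, q, hq, rfl⟩, Fin.cons g h, ?_, ?_⟩
    · ext ⟨i, x⟩
      simp only [pairS, ← hU', left_join, right_join, ← hW', hq1, coC, Set.mem_ofPred_eq]
      refine Fin.cases ?_ (fun i => ?_) i
      · simp only [Fin.cons_zero, Set.mem_compl_iff, true_and]
        constructor
        · rintro (h | ⟨i, hi, _⟩)
          · exact h
          · exact absurd hi (Fin.succ_ne_zero i).symm
        · exact Or.inl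
      · simp only [Fin.cons_succ]
        constructor
        · rintro (⟨h, _⟩ | ⟨j, hj, h⟩)
          · exact absurd h (Fin.succ_ne_zero i)
          · rw [Fin.succ_inj] at hj
            exact hj ▸ h
        · intro h
          exact Or.inr ⟨i, rfl, h⟩
    · have e1 : (fun x => ((0 : Fin (n + 1 + 1)), x)) ⁻¹'
          (coC (Fin.cons g h : Fin (n + 1 + 1) → ℕ → ℕ)) = (cGraph g)ᶜ := by
        ext x
        simp [coC]
      have e2 : (fun q : Fin (n + 1) × ℕ => (q.1.succ, q.2)) ⁻¹'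
          (coC (Fin.cons g h : Fin (n + 1 + 1) → ℕ → ℕ)) = coC h := by
        ext x
        simp [coC]
      simp only [pairS, e1, e2, ← hV', hq2, ← hT']

/-! ### The sets attached to a function -/

/-- The telograph-cototal representative used. -/
def X (g : ℕ → ℕ) : Set ℕ := join (graph g)ᶜ (tGraph 2 g)

theorem mem_X_even (g : ℕ → ℕ) (n y : ℕ) : 2 * Nat.pair n y ∈ X g ↔ g n ≠ y := by
  simp only [X, join, Set.mem_ofPred_eq, Set.mem_compl_iff, graph]
  constructor
  · rintro (⟨m, hm, h⟩ | ⟨m, hm, h⟩) hg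
    · have : m = Nat.pair n y := by omega
      exact hm ⟨n, by rw [this, hg]⟩
    · omega
  · intro h
    refine Or.inl ⟨_, ?_, rfl⟩
    rintro ⟨m, hm⟩
    rw [Nat.pair_eq_pair] at hm
    exact h (hm.1 ▸ hm.2.symm)

theorem mem_X_odd (g : ℕ → ℕ) (n y : ℕ) : 2 * Nat.pair n y + 1 ∈ X g ↔ g n = y ∧ 2 ≤ y := by
  simp only [X, join, Set.mem_ofPred_eq, Set.mem_compl_iff, tGraph]
  constructor
  · rintro (⟨m, hm, h⟩ | ⟨m, ⟨k, hk, hk'⟩, h⟩)
    · omega
    · have : m = Nat.pair n y := by omega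
      rw [this, Nat.pair_eq_pair] at hk'
      obtain ⟨rfl, rfl⟩ := hk'
      exact ⟨rfl, hk⟩
  · rintro ⟨rfl, h⟩
    exact Or.inr ⟨_, ⟨n, h, rfl⟩, rfl⟩

theorem forms (x : ℕ) : (∃ n y, x = 2 * Nat.pair n y) ∨ (∃ n y, x = 2 * Nat.pair n y + 1) := by
  rcases Nat.even_or_odd' x with ⟨c, h | h⟩
  · exact Or.inl ⟨c.unpair.1, c.unpair.2, by rw [Nat.pair_unpair]; exact h⟩
  · exact Or.inr ⟨c.unpair.1, c.unpair.2, by rw [Nat.pair_unpair]; exact h⟩

theorem isClopen_mem_X (x : ℕ) : IsClopen {g : ℕ → ℕ | x ∈ X g} := by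
  rcases forms x with ⟨n, y, rfl⟩ | ⟨n, y, rfl⟩
  · have : {g : ℕ → ℕ | 2 * Nat.pair n y ∈ X g} = (fun g : ℕ → ℕ => g n) ⁻¹' {y}ᶜ := by
      ext g
      simp [mem_X_even]
    rw [this]
    exact (isClopen_discrete _).preimage (continuous_apply n)
  · have : {g : ℕ → ℕ | 2 * Nat.pair n y + 1 ∈ X g} =
        (fun g : ℕ → ℕ => g n) ⁻¹' {z | z = y ∧ 2 ≤ y} := by
      ext g
      simp [mem_X_odd]
    rw [this]
    exact (isClopen_discrete _).preimage (continuous_apply n)

theorem isOpen_cp_X {P : Set ℕ → Prop} (hP : CP P) : IsOpen {g : ℕ → ℕ | P (X g)} := by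
  have : {g : ℕ → ℕ | P (X g)} =
      ⋃ F : {F : Finset ℕ // P (F : Set ℕ)}, ⋂ x ∈ F.1, {g : ℕ → ℕ | x ∈ X g} := by
    ext g
    simp only [Set.mem_ofPred_eq, Set.mem_iUnion, Set.mem_iInter, hP (X g)]
    constructor
    · rintro ⟨F, hF, hPF⟩
      exact ⟨⟨F, hPF⟩, fun x hx => hF hx⟩
    · rintro ⟨⟨F, hPF⟩, h⟩
      exact ⟨F, fun x hx => h x hx, hPF⟩
  rw [this]
  refine isOpen_iUnion (fun F => ?_)
  exact isOpen_biInter_finset (fun x _ => (isClopen_mem_X x).isOpen)

/-- Moving one value to infinity. -/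
theorem conv_mem {w : ℕ → ℕ} {a : ℕ} (hw : w a < 2) {x : ℕ} (hx : x ∈ X w) :
    ∀ᶠ m in Filter.atTop, x ∈ X (Function.update w a m) := by
  rcases forms x with ⟨n, y, rfl⟩ | ⟨n, y, rfl⟩
  · rw [mem_X_even] at hx
    filter_upwards [Filter.eventually_gt_atTop y] with m hm
    rw [mem_X_even]
    by_cases h : n = a
    · subst h
      rw [Function.update_self]
      omega
    · rw [Function.update_of_ne h]
      exact hx
  · rw [mem_X_odd] at hx
    refine Filter.Eventually.of_forall (fun m => ?_)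
    rw [mem_X_odd]
    have h : n ≠ a := by
      rintro rfl
      omega
    rw [Function.update_of_ne h]
    exact hx

theorem conv_cp {P : Set ℕ → Prop} (hP : CP P) {w : ℕ → ℕ} {a : ℕ} (hw : w a < 2)
    (h : P (X w)) : ∀ᶠ m in Filter.atTop, P (X (Function.update w a m)) := by
  obtain ⟨F, hF, hPF⟩ := (hP _).1 h
  have : ∀ᶠ m in Filter.atTop, ∀ x ∈ F, x ∈ X (Function.update w a m) := by
    rw [Filter.eventually_all_finset]
    exact fun x hx => conv_mem hw (hF hx)
  filter_upwards [this] with m hm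
  exact hP.mono (fun x hx => hm x hx) hPF

/-! ### The tree condition -/

/-- The `j`-th set of strings is a chain closed under initial segments. -/
def Chain {n : ℕ} (S : Set (Fin n × ℕ)) (j : Fin n) : Prop :=
  (∀ σ τ : List ℕ, (j, Encodable.encode σ) ∉ S → (j, Encodable.encode τ) ∉ S →
      σ <+: τ ∨ τ <+: σ) ∧
    (∀ σ τ : List ℕ, σ <+: τ → (j, Encodable.encode τ) ∉ S → (j, Encodable.encode σ) ∉ S)

theorem range_map_prefix (h : ℕ → ℕ) {k l : ℕ} (hkl : k ≤ l) :
    (List.range k).map h <+: (List.range l).map h := by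
  refine List.IsPrefix.map h ?_
  obtain ⟨c, rfl⟩ := Nat.exists_eq_add_of_le hkl
  rw [List.range_add]
  exact List.prefix_append _ _

theorem chain_coC {n : ℕ} (h : Fin n → ℕ → ℕ) (j : Fin n) : Chain (coC h) j := by
  constructor
  · intro σ τ hσ hτ
    simp only [coC, Set.mem_ofPred_eq, not_not, cGraph, Encodable.encode_inj] at hσ hτ
    obtain ⟨k, rfl⟩ := hσ
    obtain ⟨l, rfl⟩ := hτ
    rcases le_total k l with hkl | hkl
    · exact Or.inl (range_map_prefix _ hkl)
    · exact Or.inr (range_map_prefix _ hkl)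
  · intro σ τ hστ hτ
    simp only [coC, Set.mem_ofPred_eq, not_not, cGraph, Encodable.encode_inj] at hτ ⊢
    obtain ⟨l, rfl⟩ := hτ
    refine ⟨σ.length, ?_⟩
    have h1 : σ.length ≤ l := by simpa using hστ.length_le
    have h2 := List.prefix_of_prefix_length_le hστ (range_map_prefix (h j) h1) (by simp)
    exact h2.eq_of_length (by simp)

/-- Codes are onto, so a member of the complement of a tuple is a string. -/
theorem exists_code (x : ℕ) : ∃ σ : List ℕ, x = Encodable.encode σ :=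
  ⟨Denumerable.ofNat (List ℕ) x, by simp⟩

/-- The set of functions for which a given pair of operators works. -/
def Good {n : ℕ} (p : OpPair n) (g : ℕ → ℕ) : Prop :=
  (∀ j, Chain (p.1 (X g)) j) ∧ ∀ x, x ∈ p.2 (p.1 (X g)) ↔ x ∈ X g

theorem good_measurable {n : ℕ} {p : OpPair n} (h1 : Cont p.1) (h2 : Cont p.2) :
    MeasurableSet {g : ℕ → ℕ | Good p g} := by
  have m1 : ∀ q : Fin n × ℕ, Measurable (fun g : ℕ → ℕ => q ∈ p.1 (X g)) := fun q =>
    measurableSet_setOfPred.1 (isOpen_cp_X (h1 q)).measurableSet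
  have m2 : ∀ x : ℕ, Measurable (fun g : ℕ → ℕ => x ∈ p.2 (p.1 (X g))) := fun x =>
    measurableSet_setOfPred.1 (isOpen_cp_X ((h2.comp h1) x)).measurableSet
  have m3 : ∀ x : ℕ, Measurable (fun g : ℕ → ℕ => x ∈ X g) := fun x =>
    measurableSet_setOfPred.1 (isClopen_mem_X x).isOpen.measurableSet
  refine measurableSet_setOfPred.2 ?_
  unfold Good Chain
  refine Measurable.and (Measurable.forall fun j => Measurable.and ?_ ?_) ?_
  · exact Measurable.forall fun σ => Measurable.forall fun τ =>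
      (m1 _).not.imp ((m1 _).not.imp measurable_const)
  · exact Measurable.forall fun σ => Measurable.forall fun τ =>
      measurable_const.imp ((m1 _).not.imp (m1 _).not)
  · exact Measurable.forall fun x => (m2 x).iff (m3 x)

/-! ### The combinatorial core -/

theorem core {n : ℕ} {p : OpPair n} (h1 : Cont p.1) (h2 : Cont p.2) (u : ℕ → ℕ) (N : ℕ)
    (hu : Good p u) (hup : ∀ k, N ≤ k → ∀ m, Good p (Function.update u k m))
    (hinf : ∀ i, ∃ k, i ≤ k ∧ u k = 0) : False := by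
  -- an increasing enumeration of zeros of `u` beyond `N`
  have hf : ∀ i : ℕ, ∃ k, N ≤ k ∧ i ≤ k ∧ u k = 0 := by
    intro i
    obtain ⟨k, hk, hk'⟩ := hinf (max N i)
    exact ⟨k, le_trans (le_max_left _ _) hk, le_trans (le_max_right _ _) hk, hk'⟩
  have hS : {k | N ≤ k ∧ u k = 0}.Infinite := by
    rw [Set.infinite_iff_exists_gt]
    intro a
    obtain ⟨k, hk, hk', hk''⟩ := hf (a + 1)
    exact ⟨k, ⟨hk, hk''⟩, hk'⟩
  let κ : ℕ → ℕ := Nat.nth (fun k => N ≤ k ∧ u k = 0)
  have hκmono : StrictMono κ := Nat.nth_strictMono hS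
  have hκ : ∀ i, N ≤ κ i ∧ u (κ i) = 0 := fun i => Nat.nth_mem_of_infinite hS i
  -- the invariants
  let T : (ℕ → ℕ) → Fin n → Set (List ℕ) := fun g j => {σ | (j, Encodable.encode σ) ∉ p.1 (X g)}
  let v : ℕ → ℕ → ℕ := fun k => Function.update u k 1
  let d : ℕ → Fin n → ℕ∞ := fun k j =>
    ⨆ ρ ∈ {ρ | ρ ∈ T u j ∧ ρ ∈ T (v k) j}, ((ρ.length + 1 : ℕ) : ℕ∞)
  have key : ∀ a b, N ≤ a → u a = 0 → N ≤ b → u b = 0 → a ≠ b → ∃ j, d b j < d a j := by
    intro a b ha ha0 hb hb0 hab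
    have hvb : Good p (v b) := hup b hb 1
    have e0 : 2 * Nat.pair b 0 ∈ X (v b) := by
      rw [mem_X_even]
      simp [v]
    rw [← hvb.2] at e0
    obtain ⟨F, hF, hF'⟩ := (h2 _ _).1 e0
    have hz : ∀ m, ∃ q ∈ F, q ∉ p.1 (X (Function.update u a m)) := by
      intro m
      by_contra hcon
      push Not at hcon
      have : 2 * Nat.pair b 0 ∈ p.2 (p.1 (X (Function.update u a m))) :=
        h2.mono (fun q hq => hcon q hq) hF'
      rw [(hup a ha m).2, mem_X_even, Function.update_of_ne hab.symm] at this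
      exact this hb0
    have hq : ∃ q ∈ F, ¬ ∀ᶠ m in Filter.atTop, q ∈ p.1 (X (Function.update u a m)) := by
      by_contra hcon
      push Not at hcon
      have : ∀ᶠ m in Filter.atTop, ∀ q ∈ F, q ∈ p.1 (X (Function.update u a m)) := by
        rw [Filter.eventually_all_finset]
        exact hcon
      obtain ⟨m, hm⟩ := this.exists
      obtain ⟨q, hq, hq'⟩ := hz m
      exact hq' (hm q hq)
    obtain ⟨⟨j, x⟩, hqF, hqn⟩ := hq
    obtain ⟨τ, rfl⟩ := exists_code x
    have t1 : τ ∈ T u j := by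
      intro hcon
      exact hqn (conv_cp (h1 _) (by omega) hcon)
    have t2 : τ ∈ T (v a) j := by
      intro hcon
      refine hqn ?_
      have := conv_cp (a := a) (h1 _) (by simp [v]) hcon
      simpa only [v, Function.update_idem] using this
    have t3 : τ ∉ T (v b) j := fun hcon => hcon (hF hqF)
    refine ⟨j, ?_⟩
    have l1 : ((τ.length + 1 : ℕ) : ℕ∞) ≤ d a j :=
      le_iSup₂ (f := fun (ρ : List ℕ) (_ : ρ ∈ {ρ | ρ ∈ T u j ∧ ρ ∈ T (v a) j}) =>
        ((ρ.length + 1 : ℕ) : ℕ∞)) τ ⟨t1, t2⟩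
    have l2 : d b j ≤ (τ.length : ℕ∞) := by
      refine iSup₂_le ?_
      rintro ρ ⟨r1, r2⟩
      have hlt : ρ.length < τ.length := by
        rcases (hu.1 j).1 ρ τ r1 t1 with h | h
        · rcases h.length_le.lt_or_eq with h' | h'
          · exact h'
          · exact absurd (h.eq_of_length h' ▸ r2) t3
        · exact absurd ((hvb.1 j).2 τ ρ h r2) t3
      exact_mod_cast hlt
    refine lt_of_le_of_lt l2 (lt_of_lt_of_le ?_ l1)
    exact_mod_cast Nat.lt_succ_self _
  obtain ⟨i, j, hij, hle⟩ := (wellQuasiOrdered_le (α := Fin n → ℕ∞)) (fun i => d (κ i))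
  obtain ⟨l, hl⟩ := key (κ j) (κ i) (hκ j).1 (hκ j).2 (hκ i).1 (hκ i).2 (hκmono hij).ne'
  have := key (κ i) (κ j) (hκ i).1 (hκ i).2 (hκ j).1 (hκ j).2 (hκmono hij).ne
  obtain ⟨l', hl'⟩ := this
  exact absurd (hle l') (not_le.2 hl')

/-! ### Baire category -/

theorem isOpenMap_update (k m : ℕ) :
    IsOpenMap (fun g : ℕ → ℕ => Function.update g k m) := by
  intro U hU
  rw [isOpen_iff_mem_nhds]
  rintro _ ⟨g, hg, rfl⟩
  -- the set of `w` with `w k = m` and `update w k (g k) ∈ U`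
  have ho : IsOpen {w : ℕ → ℕ | w k = m ∧ Function.update w k (g k) ∈ U} := by
    refine IsOpen.inter ?_ ?_
    · exact (isOpen_discrete ({m} : Set ℕ)).preimage (continuous_apply (A := fun _ : ℕ => ℕ) k)
    · exact hU.preimage (continuous_id.update k continuous_const)
  refine Filter.mem_of_superset (ho.mem_nhds ?_) ?_
  · constructor
    · simp
    · simpa using hg
  · rintro w ⟨hw, hw'⟩
    refine ⟨_, hw', ?_⟩
    simp only [Function.update_idem]
    rw [← hw, Function.update_eq_self]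

theorem meagre_good {n : ℕ} {p : OpPair n} (h1 : Cont p.1) (h2 : Cont p.2) :
    IsMeagre {g : ℕ → ℕ | Good p g} := by
  by_contra hnm
  obtain ⟨U, hU, hUeq⟩ := (good_measurable h1 h2).baireMeasurableSet.residualEq_isOpen
  have hne : U.Nonempty := by
    rw [Set.nonempty_iff_ne_empty]
    rintro rfl
    apply hnm
    unfold IsMeagre
    filter_upwards [hUeq] with g hg
    intro hcon
    exact hg.mp hcon
  obtain ⟨g0, hg0⟩ := hne
  obtain ⟨N, hN⟩ : ∃ N, ∀ g : ℕ → ℕ, (∀ i < N, g i = g0 i) → g ∈ U := by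
    have := (PiNat.isTopologicalBasis_cylinders (fun _ : ℕ => ℕ)).mem_nhds_iff.1 (hU.mem_nhds hg0)
    obtain ⟨s, ⟨x, N, rfl⟩, hs1, hs2⟩ := this
    refine ⟨N, fun g hg => hs2 ?_⟩
    intro i hi
    rw [hg i hi]
    exact hs1 i hi
  have hE : ∀ᶠ g in residual (ℕ → ℕ), (Good p g ↔ g ∈ U) := by
    filter_upwards [hUeq] with g hg
    exact Iff.of_eq hg
  have hE2 : ∀ᶠ g in residual (ℕ → ℕ), ∀ k m,
      (Good p (Function.update g k m) ↔ Function.update g k m ∈ U) := by
    rw [eventually_countable_forall]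
    intro k
    rw [eventually_countable_forall]
    intro m
    exact (tendsto_residual_of_isOpenMap (continuous_id.update k continuous_const)
      (isOpenMap_update k m)).eventually hE
  have hE3 : ∀ᶠ g in residual (ℕ → ℕ), ∀ i, ∃ k, i ≤ k ∧ g k = 0 := by
    rw [eventually_countable_forall]
    intro i
    refine residual_of_dense_open ?_ ?_
    · have : {g : ℕ → ℕ | ∃ k, i ≤ k ∧ g k = 0} =
          ⋃ k : {k // i ≤ k}, (fun g : ℕ → ℕ => g k) ⁻¹' {0} := by
        ext g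
        simp
      change IsOpen {g : ℕ → ℕ | ∃ k, i ≤ k ∧ g k = 0}
      rw [this]
      exact isOpen_iUnion fun k => (isOpen_discrete _).preimage (continuous_apply _)
    · change Dense {g : ℕ → ℕ | ∃ k, i ≤ k ∧ g k = 0}
      rw [(PiNat.isTopologicalBasis_cylinders (fun _ : ℕ => ℕ)).dense_iff]
      rintro _ ⟨x, M, rfl⟩ _
      refine ⟨Function.update x (max i M) 0, ?_, max i M, le_max_left _ _, by simp⟩
      intro l hl
      rw [Function.update_of_ne]
      have := le_max_right i M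
      omega
  have hall := (hE.and (hE2.and hE3))
  obtain ⟨u, hu, hu'⟩ := (dense_of_mem_residual hall).inter_open_nonempty
    (PiNat.cylinder g0 N) (PiNat.isOpen_cylinder _ g0 N) ⟨g0, fun i _ => rfl⟩
  obtain ⟨hu1, hu2, hu3⟩ := hu'
  have huU : ∀ i < N, u i = g0 i := fun i hi => hu i hi
  refine core h1 h2 u N (hu1.2 (hN u huU)) ?_ hu3
  intro k hk m
  refine (hu2 k m).2 (hN _ ?_)
  intro i hi
  rw [Function.update_of_ne (by omega)]
  exact huU i hi

theorem enumLE_refl (A : Set ℕ) : EnumLE A A := by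
  refine ⟨{x | x.unpair.2 = 2 ^ x.unpair.1}, ?_, ?_⟩
  · have hc : ComputablePred (fun x : ℕ => x.unpair.2 = 2 ^ x.unpair.1) := by
      refine ⟨fun x => inferInstance, ?_⟩
      have hp : Primrec₂ (fun a b : ℕ => a ^ b) := by
        exact Primrec₂.unpaired'.1 Nat.Primrec.pow
      have hp' : PrimrecPred (fun x : ℕ => x.unpair.2 = 2 ^ x.unpair.1) :=
        Primrec.eq.comp (Primrec.snd.comp Primrec.unpair)
          (hp.comp (Primrec.const 2) (Primrec.fst.comp Primrec.unpair))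
      obtain ⟨_, hp'⟩ := hp'
      exact hp'.to_comp.of_eq (fun x => by congr)
    exact hc.to_re
  · intro n
    have hD : D (2 ^ n) = {n} := by
      ext i
      simp only [D, Set.mem_ofPred_eq, Nat.testBit_two_pow, decide_eq_true_eq,
        Set.mem_singleton_iff]
      exact eq_comm
    constructor
    · intro hn
      refine ⟨2 ^ n, by simp, ?_⟩
      rw [hD]
      simpa using hn
    · rintro ⟨e, he, hDe⟩
      simp only [Set.mem_ofPred_eq, Nat.unpair_pair] at he
      subst he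
      rw [hD] at hDe
      simpa using hDe

/-- There is a telograph-cototal `e`-degree that is not `n`-cylinder-cototal for any
`n ≥ 1`. -/
theorem result : ∃ A : Set ℕ, TelographCototal A ∧ ∀ n, 1 ≤ n → ¬ NCylinderCototal n A := by
  have hM : IsMeagre (⋃ n : ℕ, ⋃ p ∈ Fam n, {g : ℕ → ℕ | Good p g}) := by
    refine isMeagre_iUnion (fun n => ?_)
    rw [Set.biUnion_eq_iUnion]
    have : Countable (Fam n) := (fam_countable n).to_subtype
    exact isMeagre_iUnion (fun p => meagre_good (fam_cont n p.1 p.2).1 (fam_cont n p.1 p.2).2)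
  obtain ⟨g, -, hg⟩ := (dense_of_mem_residual hM).inter_open_nonempty Set.univ isOpen_univ
    ⟨fun _ => 0, trivial⟩
  refine ⟨X g, ⟨g, 2, enumLE_refl _, enumLE_refl _⟩, ?_⟩
  intro n hn hcon
  obtain ⟨n, rfl⟩ := Nat.exists_eq_add_of_le' hn
  obtain ⟨p, hp, h, hp1, hp2⟩ := fam_rep n _ hcon
  refine hg ?_
  simp only [Set.mem_iUnion]
  refine ⟨n, p, hp, ?_, ?_⟩
  · intro j
    rw [hp1]
    exact chain_coC h j
  · intro x
    rw [hp1, hp2]

end Pool.Agent.Results.MP_2b9a36_lc.NotNCylinder
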